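import Pool.Agent.H31.Cog4

namespace Pool.Agent.Results.MP_815355_co.Antichain

open Pool.Agent.H31.Cog

theorem result : ∃ φ : ℕ → Lim, (∀ i, φ i ∈ Phi) ∧ ∀ i j, i ≠ j → ¬ Sub (φ i) (φ j) := by
  refine ⟨fun i => dens (WG fun l => l ∈ Set.range (sq i)) fun _ => 1,
    fun i => mem_Phi (fun j => ⟨_, (sq_mono i).le_apply, j, rfl⟩) fun j => ?_,
    fun _ _ => not_sub⟩
  refine ⟨4 * j + 3, by omega, ?_⟩
  rintro ⟨m, hm⟩
  unfold Pool.Agent.H31.Cog.sq at hm
  generalize (2 * m + if m.unpair.1 = i then 1 else 0) = k at hm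
  cases k with
  | zero => omega
  | succ k => rw [pow_succ] at hm; omega

end Pool.Agent.Results.MP_815355_co.Antichain
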